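import Mathlib
import Pool.Agent.V1169.NI8

set_option autoImplicit false

open Filter Topology

open Pool.Agent.V1169.NI

namespace Pool.Agent.Results.MP_6da9ed_an.UltrapowerIndexDrops

/-- There is a real Banach space `X` with positive numerical index such that the ultrapower of `X`
along every free ultrafilter on `ℕ` has numerical index zero. (`LI X` is the space of bounded
sequences in `X` with the sup norm, `UPow U X` its quotient by the closed subspace of sequences with
`lim_U ‖x k‖ = 0`; the first clause records that its norm is `lim_U ‖x k‖`.) -/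
theorem result :
    ∃ (X : Type) (_ : NormedAddCommGroup X) (_ : NormedSpace ℝ X) (_ : CompleteSpace X),
      0 < numIndex X ∧
      (∀ U : Ultrafilter ℕ, (U : Filter ℕ) ≤ cofinite →
        (∀ x : LI X, Tendsto (fun k => ‖x k‖) U
          (𝓝 ‖(Submodule.Quotient.mk x : UPow U X)‖)) ∧
        numIndex (UPow U X) = 0) ∧
      ∃ U : Ultrafilter ℕ, (U : Filter ℕ) ≤ cofinite ∧ numIndex (UPow U X) ≠ numIndex X := by
  refine ⟨XX, inferInstance, inferInstance, inferInstance, numIndex_XX_pos, ?_, ?_⟩
  · intro U hU
    exact ⟨fun x => tendsto_norm_mk U x, numIndex_UPow U hU⟩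
  · refine ⟨hyperfilter ℕ, hyperfilter_le_cofinite, ?_⟩
    rw [numIndex_UPow _ hyperfilter_le_cofinite]
    exact ne_of_lt numIndex_XX_pos

end Pool.Agent.Results.MP_6da9ed_an.UltrapowerIndexDrops
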